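import Pool.Agent.H74.HG.Dist2

set_option autoImplicit false

/-!
# Colourful directed Talagrand inequality for the weighted influence, with one factor `log n`

Answer to Q1 of MP_21aa3b_co: yes, with `c = 1`, for all colourings; this is the order of the
known bound for the uncoloured influence. The points of `[n]^d` are the functions `Fin d → Fin n`
(coordinates `0, ..., n - 1` instead of `1, ..., n`), ordered coordinatewise. A Boolean function
is a function to `Bool`. A colouring of the edges is given by a `Bool` valued function on
unordered pairs of points (only its values on edges matter).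
-/

namespace Pool.Agent.Results.MP_21aa3b_co.LogFactorOne

/-- Points of the hypergrid `[n]^d`. -/
abbrev Grid (n d : ℕ) := Fin d → Fin n

/-- `x ≤ y`, `f x = 1` and `f y = 0`. -/
def Violates {n d : ℕ} (f : Grid n d → Bool) (x y : Grid n d) : Prop :=
  x ≤ y ∧ f x = true ∧ f y = false

open Classical in
/-- The weighted influence `Ψ_{f,χ}(x; i)`: the sum of `1 / a` over the points `y = x ± a e_i` of
the grid (`y` is `x` with the `i`-th coordinate replaced by `t`, and `a = |t - x i|`) such that the
pair `x, y` is violating and its colour is `f x`. -/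
noncomputable def psi {n d : ℕ} (f : Grid n d → Bool) (χ : Sym2 (Grid n d) → Bool) (x : Grid n d)
    (i : Fin d) : ℝ :=
  ∑ t : Fin n, if (Violates f x (Function.update x i t) ∨ Violates f (Function.update x i t) x) ∧
    χ s(x, Function.update x i t) = f x then 1 / |((t : ℕ) : ℝ) - ((x i : ℕ) : ℝ)| else 0

/-- `T_{Ψ_χ}(f)`, the mean over the grid of the square root of `Ψ_{f,χ}(x)`. -/
noncomputable def talagrand {n d : ℕ} (f : Grid n d → Bool) (χ : Sym2 (Grid n d) → Bool) : ℝ :=
  (∑ x, Real.sqrt (∑ i, psi f χ x i)) / (n : ℝ) ^ d

open Classical in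
/-- The distance to monotonicity `ε_f`: the least fraction of points at which `f` differs from a
monotone Boolean function. -/
noncomputable def distMono {n d : ℕ} (f : Grid n d → Bool) : ℝ :=
  sInf {r : ℝ | ∃ g : Grid n d → Bool, Monotone g ∧
    ((Finset.univ.filter (fun x => f x ≠ g x)).card : ℝ) / (n : ℝ) ^ d = r}

/-- The colourful directed Talagrand inequality for the weighted influence with the factor
`1 / log n`, for all `n`, `d`, all Boolean functions and all colourings. -/
theorem result : ∀ n d : ℕ, 2 ≤ n → 1 ≤ d → ∀ ε : ℝ, 0 < ε → ∀ f : Grid n d → Bool,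
    ε ≤ distMono f → ∀ χ : Sym2 (Grid n d) → Bool,
    1 / 400 * (ε / Real.log n) ≤ talagrand f χ := by
  intro n d hn _ ε _ f hε χ
  have h : distMono f ≤ 400 * Real.log n * talagrand f χ :=
    Pool.Agent.H74.HG.fin2 n d hn f χ
  have hlog : 0 < Real.log n := Real.log_pos (by exact_mod_cast hn)
  rw [← mul_div_assoc, div_le_iff₀ hlog]
  have h2 : ε ≤ 400 * Real.log n * talagrand f χ := hε.trans h
  linarith

end Pool.Agent.Results.MP_21aa3b_co.LogFactorOne
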